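import Mathlib

set_option autoImplicit false

/-!
Counting reduced words, and reduced words in which four consecutive letters are never all
different from the letter of index zero.
-/

namespace Pool.Agent.Helper34.FreeCount



variable {s : ℕ}

/-- letters of the free group of rank `s + 2` -/
abbrev Letter (s : ℕ) := Fin (s + 2) × Bool

/-- `ok L k` : the first run of letters of nonzero index has length at most `k`, all the other such
runs have length at most `3`. -/
def ok : List (Letter s) → ℕ → Prop
  | [], _ => True
  | x :: L, k => if x.1 = 0 then ok L 3 else 0 < k ∧ ok L (k - 1)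

lemma ok_nil (k : ℕ) : ok ([] : List (Letter s)) k := trivial

lemma ok_cons_zero {x : Letter s} (hx : x.1 = 0) (L : List (Letter s)) (k : ℕ) :
    ok (x :: L) k ↔ ok L 3 := by
  simp [ok, hx]

lemma ok_cons_ne {x : Letter s} (hx : x.1 ≠ 0) (L : List (Letter s)) (k : ℕ) :
    ok (x :: L) k ↔ 0 < k ∧ ok L (k - 1) := by
  simp [ok, hx]

lemma ok_mono : ∀ (L : List (Letter s)) (k l : ℕ), k ≤ l → ok L k → ok L l
  | [], _, _, _, _ => trivial
  | x :: L, k, l, h, hk => by
    by_cases hx : x.1 = 0
    · rw [ok_cons_zero hx] at hk ⊢; exact hk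
    · rw [ok_cons_ne hx] at hk ⊢
      exact ⟨by omega, ok_mono L (k - 1) (l - 1) (by omega) hk.2⟩

lemma ok_tail {x : Letter s} {L : List (Letter s)} (h : ok (x :: L) 3) : ok L 3 := by
  by_cases hx : x.1 = 0
  · rwa [ok_cons_zero hx] at h
  · rw [ok_cons_ne hx] at h
    exact ok_mono L 2 3 (by omega) h.2

/-- prepending at most `k` letters of nonzero index to a word starting with index zero -/
lemma ok_append_of_ne : ∀ (E X : List (Letter s)) (k : ℕ), (∀ x ∈ E, x.1 ≠ 0) → E.length ≤ k →
    (∀ j, ok X j) → ok (E ++ X) k
  | [], X, k, _, _, hX => hX k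
  | x :: E, X, k, hE, hk, hX => by
    have hx : x.1 ≠ 0 := hE x (by simp)
    simp only [List.length_cons] at hk
    rw [List.cons_append, ok_cons_ne hx]
    exact ⟨by omega, ok_append_of_ne E X (k - 1) (fun y hy => hE y (by simp [hy])) (by omega) hX⟩

/-- gluing after a letter of index zero -/
lemma ok_append_of_last : ∀ (X Y : List (Letter s)) (k : ℕ), (∃ x ∈ X.getLast?, x.1 = 0) →
    ok X k → ok Y 3 → ok (X ++ Y) k
  | [], _, _, h, _, _ => by simp at h
  | [x], Y, k, h, _, hY => by
    have hx : x.1 = 0 := by simpa using h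
    rw [List.singleton_append, ok_cons_zero hx]; exact hY
  | x :: y :: X, Y, k, h, hX, hY => by
    have h' : ∃ z ∈ (y :: X).getLast?, z.1 = 0 := by simpa using h
    rw [List.cons_append]
    by_cases hx : x.1 = 0
    · rw [ok_cons_zero hx] at hX ⊢
      exact ok_append_of_last (y :: X) Y 3 h' hX hY
    · rw [ok_cons_ne hx] at hX ⊢
      exact ⟨hX.1, ok_append_of_last (y :: X) Y (k - 1) h' hX.2 hY⟩

open Classical in
/-- the letters that can be put in front of the word -/
noncomputable def front (L : List (Letter s)) : Finset (Letter s) :=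
  Finset.univ.filter (fun x => FreeGroup.IsReduced (x :: L))

/-- all reduced words obtained by putting `k` letters in front of `L` -/
noncomputable def ext : ℕ → List (Letter s) → Finset (List (Letter s))
  | 0, L => {L}
  | k + 1, L => (ext k L).biUnion (fun L' => (front L').image (fun x => x :: L'))

lemma mem_front {L : List (Letter s)} {x : Letter s} : x ∈ front L ↔ FreeGroup.IsReduced (x :: L) := by
  simp [front]

lemma mem_ext_succ {k : ℕ} {L W : List (Letter s)} :
    W ∈ ext (k + 1) L ↔ ∃ x W', W = x :: W' ∧ W' ∈ ext k L ∧ FreeGroup.IsReduced W := by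
  simp only [ext, Finset.mem_biUnion, Finset.mem_image, mem_front]
  constructor
  · rintro ⟨W', h, x, hx, rfl⟩
    exact ⟨x, W', rfl, h, hx⟩
  · rintro ⟨x, W', rfl, h, hx⟩
    exact ⟨W', h, x, hx, rfl⟩

lemma length_of_mem_ext : ∀ (k : ℕ) {L W : List (Letter s)}, W ∈ ext k L →
    W.length = L.length + k
  | 0, L, W, h => by simp [ext] at h; simp [h]
  | k + 1, L, W, h => by
    obtain ⟨x, W', rfl, h', -⟩ := mem_ext_succ.1 h
    simp [length_of_mem_ext k h']; omega

lemma reduced_of_mem_ext : ∀ (k : ℕ) {L W : List (Letter s)}, FreeGroup.IsReduced L → W ∈ ext k L →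
    FreeGroup.IsReduced W
  | 0, L, W, hL, h => by simp [ext] at h; simpa [h] using hL
  | k + 1, L, W, hL, h => by
    obtain ⟨x, W', rfl, h', hr⟩ := mem_ext_succ.1 h
    exact hr

/-- every reduced word of length `n + k` is an extension of one of length `n` -/
lemma exists_mem_ext : ∀ (k n : ℕ) (W : List (Letter s)), FreeGroup.IsReduced W → W.length = n + k →
    ∃ L, L.length = n ∧ FreeGroup.IsReduced L ∧ W ∈ ext k L
  | 0, n, W, h, hW => ⟨W, by simpa using hW, h, by simp [ext]⟩
  | k + 1, n, [], h, hW => by simp at hW
  | k + 1, n, x :: W, h, hW => by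
    have hr : FreeGroup.IsReduced W := List.IsChain.tail h
    obtain ⟨L, h1, h2, h3⟩ := exists_mem_ext k n W hr (by simp at hW; omega)
    exact ⟨L, h1, h2, mem_ext_succ.2 ⟨x, W, rfl, h3, h⟩⟩

lemma card_front_cons (y : Letter s) (L : List (Letter s)) (h : FreeGroup.IsReduced (y :: L)) :
    (front (y :: L)).card = 2 * s + 3 := by
  classical
  have : front (y :: L) = Finset.univ.erase (y.1, !y.2) := by
    ext x
    simp only [mem_front, Finset.mem_erase, Finset.mem_univ, and_true]
    rw [FreeGroup.IsReduced, List.isChain_cons_cons]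
    constructor
    · rintro ⟨h1, -⟩ rfl
      have := h1 rfl
      revert this
      cases y.2 <;> simp
    · intro hne
      refine ⟨fun h1 => ?_, h⟩
      by_contra h2
      apply hne
      ext1
      · exact h1
      · revert h2
        cases x.2 <;> cases y.2 <;> simp
  rw [this, Finset.card_erase_of_mem (Finset.mem_univ _)]
  simp
  omega

lemma card_ext_succ_le (k : ℕ) (L : List (Letter s)) (N : ℕ)
    (hN : ∀ W ∈ ext k L, (front W).card ≤ N) : (ext (k + 1) L).card ≤ (ext k L).card * N := by
  classical
  rw [ext]
  exact Finset.card_biUnion_le_card_mul _ _ _ (fun W hW => Finset.card_image_le.trans (hN W hW))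

lemma card_ext_succ (k : ℕ) (L : List (Letter s)) (N : ℕ)
    (hN : ∀ W ∈ ext k L, (front W).card = N) : (ext (k + 1) L).card = (ext k L).card * N := by
  classical
  rw [ext, Finset.card_biUnion]
  · rw [Finset.sum_congr rfl (fun W hW => ?_), Finset.sum_const, smul_eq_mul]
    rw [Finset.card_image_of_injective _ (fun a b h => by simpa using h)]
    exact hN W hW
  · intro W _ W' _ hne
    rw [Function.onFun, Finset.disjoint_left]
    rintro V hV hV'
    simp only [Finset.mem_image] at hV hV'
    obtain ⟨x, -, rfl⟩ := hV
    obtain ⟨y, -, h⟩ := hV'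
    exact hne (List.cons.inj h).2.symm

lemma card_ext_cons (y : Letter s) (L : List (Letter s)) (h : FreeGroup.IsReduced (y :: L)) :
    ∀ k, (ext k (y :: L)).card = (2 * s + 3) ^ k
  | 0 => by simp [ext]
  | k + 1 => by
    rw [card_ext_succ k _ (2 * s + 3), card_ext_cons y L h k, pow_succ]
    intro W hW
    have hr := reduced_of_mem_ext k h hW
    cases W with
    | nil =>
      have := length_of_mem_ext k hW
      simp at this
      omega
    | cons z W => exact card_front_cons z W hr

/-- reduced words of length `n` -/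
noncomputable def words (s n : ℕ) : Finset (List (Letter s)) := ext n []

lemma mem_words {n : ℕ} {W : List (Letter s)} :
    W ∈ words s n ↔ FreeGroup.IsReduced W ∧ W.length = n := by
  constructor
  · intro h
    exact ⟨reduced_of_mem_ext n (by simp [FreeGroup.IsReduced]) h, by simpa using length_of_mem_ext n h⟩
  · rintro ⟨h1, h2⟩
    obtain ⟨L, hL, -, h3⟩ := exists_mem_ext n 0 W h1 (by simpa using h2)
    rw [List.length_eq_zero_iff] at hL
    subst hL
    exact h3

lemma words_card_ge (n : ℕ) : (2 * s + 3) ^ n ≤ (words s n).card := by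
  classical
  cases n with
  | zero => simp [words, ext]
  | succ n =>
    have hsub : (ext n [((0 : Fin (s + 2)), true)]) ⊆ words s (n + 1) := by
      intro W hW
      rw [mem_words]
      exact ⟨reduced_of_mem_ext n (by simp [FreeGroup.IsReduced]) hW, by
        have := length_of_mem_ext n hW; simp at this; omega⟩
    have hsub2 : (ext n [((0 : Fin (s + 2)), false)]) ⊆ words s (n + 1) := by
      intro W hW
      rw [mem_words]
      exact ⟨reduced_of_mem_ext n (by simp [FreeGroup.IsReduced]) hW, by
        have := length_of_mem_ext n hW; simp at this; omega⟩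
    have hcard : (words s (n + 1)).card = (2 * s + 4) * (2 * s + 3) ^ n := by
      have : words s (n + 1) = (Finset.univ : Finset (Letter s)).biUnion (fun x => ext n [x]) := by
        ext W
        simp only [Finset.mem_biUnion, Finset.mem_univ, true_and]
        rw [mem_words]
        constructor
        · rintro ⟨h1, h2⟩
          obtain ⟨L, hL, hr, h3⟩ := exists_mem_ext n 1 W h1 (by omega)
          obtain ⟨x, rfl⟩ := List.length_eq_one_iff.1 hL
          exact ⟨x, h3⟩
        · rintro ⟨x, hx⟩
          exact ⟨reduced_of_mem_ext n (by simp [FreeGroup.IsReduced]) hx, by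
            have := length_of_mem_ext n hx; simp at this; omega⟩
      rw [this, Finset.card_biUnion]
      · rw [Finset.sum_congr rfl (fun x _ => card_ext_cons x [] (by simp [FreeGroup.IsReduced]) n)]
        simp
        ring
      · intro x _ y _ hne
        rw [Function.onFun, Finset.disjoint_left]
        intro W hW hW'
        apply hne
        have key : ∀ (k : ℕ) (z : Letter s) (V : List (Letter s)), V ∈ ext k [z] →
            V.getLast? = some z := by
          intro k
          induction k with
          | zero => intro z V hV; simp [ext] at hV; simp [hV]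
          | succ k ih =>
            intro z V hV
            obtain ⟨t, V', rfl, h', -⟩ := mem_ext_succ.1 hV
            have h1 := ih z V' h'
            rw [List.getLast?_cons, h1]
            simp
        have h1 := key n x W hW
        have h2 := key n y W hW'
        rw [h1] at h2
        exact Option.some.inj h2
    rw [hcard, pow_succ, mul_comm]
    exact Nat.mul_le_mul_right _ (by omega)

open Classical in
/-- number of good reduced words of length `n` -/
noncomputable def good (s n : ℕ) : ℕ := ((words s n).filter (fun W => ok W 3)).card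

lemma ok_of_ext : ∀ (k : ℕ) {L W : List (Letter s)}, W ∈ ext k L → ok W 3 → ok L 3
  | 0, L, W, h, hW => by simp [ext] at h; rwa [h] at hW
  | k + 1, L, W, h, hW => by
    obtain ⟨x, W', rfl, h', -⟩ := mem_ext_succ.1 h
    exact ok_of_ext k h' (ok_tail hW)

/-- every nonempty reduced word has a bad extension by five letters -/
lemma exists_bad (y : Letter s) (L : List (Letter s)) (h : FreeGroup.IsReduced (y :: L)) :
    ∃ W ∈ ext 5 (y :: L), ¬ ok W 3 := by
  have main : ∀ z : Letter s, FreeGroup.IsReduced (z :: y :: L) → z ≠ (1, false) →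
      ∃ W ∈ ext 5 (y :: L), ¬ ok W 3 := by
    intro z hz hne
    have hz1 : FreeGroup.IsReduced ((1, true) :: z :: y :: L) := by
      rw [FreeGroup.IsReduced, List.isChain_cons_cons]
      refine ⟨fun h1 => ?_, hz⟩
      obtain ⟨z1, z2⟩ := z
      simp only at h1
      subst h1
      cases z2
      · exact absurd rfl hne
      · rfl
    have e : ∀ M : List (Letter s), FreeGroup.IsReduced ((1, true) :: M) →
        FreeGroup.IsReduced ((1, true) :: (1, true) :: M) := by
      intro M hM
      rw [FreeGroup.IsReduced, List.isChain_cons_cons]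
      exact ⟨fun _ => rfl, hM⟩
    refine ⟨(1, true) :: (1, true) :: (1, true) :: (1, true) :: z :: y :: L, ?_, ?_⟩
    · refine mem_ext_succ.2 ⟨_, _, rfl, ?_, e _ (e _ (e _ hz1))⟩
      refine mem_ext_succ.2 ⟨_, _, rfl, ?_, (e _ (e _ hz1))⟩
      refine mem_ext_succ.2 ⟨_, _, rfl, ?_, (e _ hz1)⟩
      refine mem_ext_succ.2 ⟨_, _, rfl, ?_, hz1⟩
      refine mem_ext_succ.2 ⟨_, _, rfl, ?_, hz⟩
      simp [ext]
    · simp [ok]
  by_cases hy : y = (0, false)
  · subst hy
    refine main (1, true) ?_ (by simp)
    rw [FreeGroup.IsReduced, List.isChain_cons_cons]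
    exact ⟨fun h1 => by simp at h1, h⟩
  · refine main (0, true) ?_ (by simp)
    rw [FreeGroup.IsReduced, List.isChain_cons_cons]
    refine ⟨fun h1 => ?_, h⟩
    obtain ⟨y1, y2⟩ := y
    simp only at h1
    subst h1
    cases y2
    · exact absurd rfl hy
    · rfl

lemma good_add_five (n : ℕ) (hn : 0 < n) :
    good s (n + 5) ≤ ((2 * s + 3) ^ 5 - 1) * good s n := by
  classical
  have hsub : (words s (n + 5)).filter (fun W => ok W 3) ⊆
      ((words s n).filter (fun W => ok W 3)).biUnion
        (fun L => (ext 5 L).filter (fun W => ok W 3)) := by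
    intro W hW
    rw [Finset.mem_filter, mem_words] at hW
    obtain ⟨⟨h1, h2⟩, h3⟩ := hW
    obtain ⟨L, hL, hr, h4⟩ := exists_mem_ext 5 n W h1 h2
    rw [Finset.mem_biUnion]
    refine ⟨L, ?_, ?_⟩
    · rw [Finset.mem_filter, mem_words]
      exact ⟨⟨hr, hL⟩, ok_of_ext 5 h4 h3⟩
    · rw [Finset.mem_filter]
      exact ⟨h4, h3⟩
  unfold good
  refine (Finset.card_le_card hsub).trans ?_
  rw [mul_comm]
  apply Finset.card_biUnion_le_card_mul
  intro L hL
  rw [Finset.mem_filter, mem_words] at hL
  obtain ⟨⟨hr, hlen⟩, -⟩ := hL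
  cases L with
  | nil => simp at hlen; omega
  | cons y L =>
    obtain ⟨W, hW, hbad⟩ := exists_bad y L hr
    have hss : (ext 5 (y :: L)).filter (fun W => ok W 3) ⊆ (ext 5 (y :: L)).erase W := by
      intro V hV
      rw [Finset.mem_filter] at hV
      rw [Finset.mem_erase]
      refine ⟨?_, hV.1⟩
      rintro rfl
      exact hbad hV.2
    refine (Finset.card_le_card hss).trans ?_
    rw [Finset.card_erase_of_mem hW, card_ext_cons y L hr 5]

end Pool.Agent.Helper34.FreeCount
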