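import Mathlib
import Pool.Agent.Helper34.FreeCount

set_option autoImplicit false

/-!
Analytic part: balls of the free group have at least `(2 s + 3) ^ n` elements, sets of elements all of
whose reduced words are `ok` are exponentially small.
-/

namespace Pool.Agent.Helper34.FreeCount

open Filter Topology

variable {s : ℕ}

lemma good_exp (s : ℕ) : ∃ K τ : ℝ, 0 ≤ K ∧ 0 < τ ∧ τ < 1 ∧ 1 ≤ (2 * s + 3 : ℝ) * τ ∧
    ∀ n, (good s n : ℝ) ≤ K * ((2 * s + 3 : ℝ) * τ) ^ n := by
  set c : ℝ := 2 * s + 3 with hc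
  have hc3 : (3 : ℝ) ≤ c := by
    have : (0 : ℝ) ≤ s := Nat.cast_nonneg s
    rw [hc]; linarith
  have hc5 : (243 : ℝ) ≤ c ^ 5 := by
    calc (243 : ℝ) = 3 ^ 5 := by norm_num
      _ ≤ c ^ 5 := pow_le_pow_left₀ (by norm_num) hc3 5
  set τ : ℝ := 1 - 1 / (5 * c ^ 5) with hτ
  have hpos : (0 : ℝ) < 1 / (5 * c ^ 5) := by positivity
  have hsmall : 1 / (5 * c ^ 5) ≤ 1 / 3 := by
    apply one_div_le_one_div_of_le (by norm_num)
    linarith
  have hτ1 : τ < 1 := by rw [hτ]; linarith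
  have hτ0 : 2 / 3 ≤ τ := by rw [hτ]; linarith
  have hlam : 1 ≤ c * τ := by nlinarith
  have hbern : c ^ 5 - 1 ≤ (c * τ) ^ 5 := by
    have h1 := one_add_mul_le_pow (a := -(1 / (5 * c ^ 5))) (by linarith) 5
    have h2 : (1 : ℝ) + (-(1 / (5 * c ^ 5))) = τ := by rw [hτ]; ring
    rw [h2] at h1
    rw [mul_pow]
    have h3 : c ^ 5 * (1 + ((5 : ℕ) : ℝ) * -(1 / (5 * c ^ 5))) = c ^ 5 - 1 := by
      have : c ^ 5 ≠ 0 := by positivity
      field_simp
      push_cast
      ring
    rw [← h3]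
    exact mul_le_mul_of_nonneg_left h1 (by positivity)
  refine ⟨∑ i ∈ Finset.range 6, (good s i : ℝ), τ, ?_, by linarith, hτ1, hlam, ?_⟩
  · exact Finset.sum_nonneg (fun i _ => Nat.cast_nonneg _)
  set K : ℝ := ∑ i ∈ Finset.range 6, (good s i : ℝ) with hK
  have hK0 : 0 ≤ K := Finset.sum_nonneg (fun i _ => Nat.cast_nonneg _)
  intro n
  induction n using Nat.strong_induction_on with
  | _ n ih =>
    by_cases hn : n < 6
    · calc (good s n : ℝ) ≤ K :=
            Finset.single_le_sum (f := fun i => (good s i : ℝ)) (fun i _ => Nat.cast_nonneg _)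
              (Finset.mem_range.2 hn)
        _ = K * 1 := (mul_one _).symm
        _ ≤ K * (c * τ) ^ n := mul_le_mul_of_nonneg_left (one_le_pow₀ hlam) hK0
    · obtain ⟨m, rfl⟩ : ∃ m, n = m + 5 := ⟨n - 5, by omega⟩
      have hm : 0 < m := by omega
      have h1 : ((good s (m + 5) : ℕ) : ℝ) ≤ (((2 * s + 3) ^ 5 - 1 : ℕ) : ℝ) * (good s m : ℝ) := by
        exact_mod_cast good_add_five m hm
      have h2 : (((2 * s + 3) ^ 5 - 1 : ℕ) : ℝ) = c ^ 5 - 1 := by
        rw [Nat.cast_sub (Nat.one_le_pow _ _ (by omega))]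
        push_cast
        rw [hc]
      rw [h2] at h1
      have h3 := ih m (by omega)
      calc (good s (m + 5) : ℝ) ≤ (c ^ 5 - 1) * (good s m : ℝ) := h1
        _ ≤ (c * τ) ^ 5 * (K * (c * τ) ^ m) := by
            apply mul_le_mul hbern h3 (Nat.cast_nonneg _) (by positivity)
        _ = K * (c * τ) ^ (m + 5) := by ring

/-- the finite set of reduced words of length at most `n` -/
noncomputable def ballWords (s n : ℕ) : Finset (List (Letter s)) :=
  (Finset.range (n + 1)).biUnion (words s)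

lemma mem_ballWords {n : ℕ} {L : List (Letter s)} :
    L ∈ ballWords s n ↔ FreeGroup.IsReduced L ∧ L.length ≤ n := by
  simp only [ballWords, Finset.mem_biUnion, Finset.mem_range, mem_words]
  constructor
  · rintro ⟨k, hk, h1, h2⟩
    exact ⟨h1, by omega⟩
  · rintro ⟨h1, h2⟩
    exact ⟨L.length, by omega, h1, rfl⟩

lemma ball_finite (s n : ℕ) : {w : FreeGroup (Fin (s + 2)) | w.norm ≤ n}.Finite := by
  apply Set.Finite.of_finite_image (f := FreeGroup.toWord)
  · apply (ballWords s n).finite_toSet.subset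
    rintro L ⟨w, hw, rfl⟩
    simp only [Finset.mem_coe, mem_ballWords]
    exact ⟨FreeGroup.isReduced_toWord, hw⟩
  · exact FreeGroup.toWord_injective.injOn

lemma ball_card_ge (s n : ℕ) :
    (2 * s + 3) ^ n ≤ {w : FreeGroup (Fin (s + 2)) | w.norm ≤ n}.ncard := by
  refine (words_card_ge n).trans ?_
  rw [← Set.ncard_coe_finset]
  refine Set.ncard_le_ncard_of_injOn (fun L => FreeGroup.mk L) ?_ ?_ (ball_finite s n)
  · intro L hL
    rw [Finset.mem_coe, mem_words] at hL
    change (FreeGroup.mk L).norm ≤ n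
    simp only [FreeGroup.norm, FreeGroup.toWord_mk]
    rw [hL.1.reduce_eq, hL.2]
  · intro L hL L' hL' h
    rw [Finset.mem_coe, mem_words] at hL hL'
    have := congrArg FreeGroup.toWord h
    simp only [FreeGroup.toWord_mk] at this
    rwa [hL.1.reduce_eq, hL'.1.reduce_eq] at this

lemma ok_card_le (s n : ℕ) (S : Set (FreeGroup (Fin (s + 2))))
    (hS : ∀ w ∈ S, ok (FreeGroup.toWord w) 3) :
    {w : FreeGroup (Fin (s + 2)) | w ∈ S ∧ w.norm ≤ n}.ncard ≤
      ∑ k ∈ Finset.range (n + 1), good s k := by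
  classical
  have h1 : {w : FreeGroup (Fin (s + 2)) | w ∈ S ∧ w.norm ≤ n}.ncard ≤
      (((Finset.range (n + 1)).biUnion
        (fun k => (words s k).filter (fun W => ok W 3)) : Finset (List (Letter s))) :
          Set (List (Letter s))).ncard := by
    apply Set.ncard_le_ncard_of_injOn FreeGroup.toWord
    · rintro w ⟨hw, hn⟩
      rw [Finset.mem_coe, Finset.mem_biUnion]
      refine ⟨w.norm, Finset.mem_range.2 (by omega), ?_⟩
      rw [Finset.mem_filter, mem_words]
      exact ⟨⟨FreeGroup.isReduced_toWord, rfl⟩, hS w hw⟩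
    · exact FreeGroup.toWord_injective.injOn
  rw [Set.ncard_coe_finset] at h1
  refine h1.trans (Finset.card_biUnion_le.trans ?_)
  apply Finset.sum_le_sum
  intro k _
  unfold good
  convert le_refl _

lemma ok_tendsto (s : ℕ) (S : Set (FreeGroup (Fin (s + 2))))
    (hS : ∀ w ∈ S, ok (FreeGroup.toWord w) 3) :
    Tendsto (fun n : ℕ => ({w : FreeGroup (Fin (s + 2)) | w ∈ S ∧ w.norm ≤ n}.ncard : ℝ) /
      ({w : FreeGroup (Fin (s + 2)) | w.norm ≤ n}.ncard : ℝ)) atTop (𝓝 0) := by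
  obtain ⟨K, τ, hK, hτ0, hτ1, hlam, hgood⟩ := good_exp s
  set c : ℝ := 2 * s + 3 with hc
  have hc0 : (0 : ℝ) < c := by rw [hc]; positivity
  have hlim : Tendsto (fun n : ℕ => K * ((n : ℝ) * τ ^ n + τ ^ n)) atTop (𝓝 0) := by
    have h1 := tendsto_self_mul_const_pow_of_lt_one hτ0.le hτ1
    have h2 := tendsto_pow_atTop_nhds_zero_of_lt_one hτ0.le hτ1
    simpa using (h1.add h2).const_mul K
  refine squeeze_zero (fun n => by positivity) (fun n => ?_) hlim
  have hN : c ^ n ≤ ({w : FreeGroup (Fin (s + 2)) | w.norm ≤ n}.ncard : ℝ) := by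
    have := ball_card_ge s n
    have h2 : (((2 * s + 3) ^ n : ℕ) : ℝ) ≤
      ({w : FreeGroup (Fin (s + 2)) | w.norm ≤ n}.ncard : ℝ) := by exact_mod_cast this
    rw [hc]
    push_cast at h2
    exact h2
  have hA : ({w : FreeGroup (Fin (s + 2)) | w ∈ S ∧ w.norm ≤ n}.ncard : ℝ) ≤
      K * (((n : ℝ) + 1) * (c * τ) ^ n) := by
    have h1 : ({w : FreeGroup (Fin (s + 2)) | w ∈ S ∧ w.norm ≤ n}.ncard : ℝ) ≤
        ∑ k ∈ Finset.range (n + 1), (good s k : ℝ) := by
      exact_mod_cast ok_card_le s n S hS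
    refine h1.trans ?_
    calc ∑ k ∈ Finset.range (n + 1), (good s k : ℝ)
        ≤ ∑ _k ∈ Finset.range (n + 1), K * (c * τ) ^ n := by
          apply Finset.sum_le_sum
          intro k hk
          refine (hgood k).trans (mul_le_mul_of_nonneg_left ?_ hK)
          exact pow_le_pow_right₀ hlam (by
            have := Finset.mem_range.1 hk
            omega)
      _ = K * (((n : ℝ) + 1) * (c * τ) ^ n) := by
          rw [Finset.sum_const, Finset.card_range]
          simp only [nsmul_eq_mul]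
          push_cast
          ring
  have hcn : (0 : ℝ) < c ^ n := by positivity
  rw [div_le_iff₀ (lt_of_lt_of_le hcn hN)]
  calc ({w : FreeGroup (Fin (s + 2)) | w ∈ S ∧ w.norm ≤ n}.ncard : ℝ)
      ≤ K * (((n : ℝ) + 1) * (c * τ) ^ n) := hA
    _ = K * ((n : ℝ) * τ ^ n + τ ^ n) * c ^ n := by rw [mul_pow]; ring
    _ ≤ K * ((n : ℝ) * τ ^ n + τ ^ n) * _ := mul_le_mul_of_nonneg_left hN (by positivity)

/-- the set of nontrivial elements has density one -/
lemma ne_one_tendsto (s : ℕ) :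
    Tendsto (fun n : ℕ => ({w : FreeGroup (Fin (s + 2)) | w ≠ 1 ∧ w.norm ≤ n}.ncard : ℝ) /
      ({w : FreeGroup (Fin (s + 2)) | w.norm ≤ n}.ncard : ℝ)) atTop (𝓝 1) := by
  have key : ∀ n : ℕ, ({w : FreeGroup (Fin (s + 2)) | w ≠ 1 ∧ w.norm ≤ n}.ncard : ℝ) /
      ({w : FreeGroup (Fin (s + 2)) | w.norm ≤ n}.ncard : ℝ) =
      1 - 1 / ({w : FreeGroup (Fin (s + 2)) | w.norm ≤ n}.ncard : ℝ) := by
    intro n
    have h1 : {w : FreeGroup (Fin (s + 2)) | w ≠ 1 ∧ w.norm ≤ n} =
        {w : FreeGroup (Fin (s + 2)) | w.norm ≤ n} \ {1} := by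
      ext w
      simp [and_comm]
    have h2 := Set.ncard_sdiff_singleton_add_one (s := {w : FreeGroup (Fin (s + 2)) | w.norm ≤ n})
      (a := 1) (by simp) (ball_finite s n)
    rw [← h1] at h2
    have h3 : (0 : ℝ) < ({w : FreeGroup (Fin (s + 2)) | w.norm ≤ n}.ncard : ℝ) := by
      have := ball_card_ge s n
      have h4 : 0 < (2 * s + 3) ^ n := by positivity
      exact_mod_cast h4.trans_le this
    rw [eq_sub_iff_add_eq, ← add_div, div_eq_one_iff_eq h3.ne']
    exact_mod_cast h2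
  simp_rw [key]
  have hlim : Tendsto (fun n : ℕ => 1 / ({w : FreeGroup (Fin (s + 2)) | w.norm ≤ n}.ncard : ℝ))
      atTop (𝓝 0) := by
    refine squeeze_zero (g := fun n : ℕ => (1 / 3 : ℝ) ^ n) (fun n => by positivity)
      (fun n => ?_) (tendsto_pow_atTop_nhds_zero_of_lt_one (by norm_num) (by norm_num))
    rw [one_div_pow]
    apply one_div_le_one_div_of_le (by positivity)
    have := ball_card_ge s n
    have h4 : 3 ^ n ≤ (2 * s + 3) ^ n := Nat.pow_le_pow_left (by omega) n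
    exact_mod_cast h4.trans this
  simpa using hlim.const_sub 1

end Pool.Agent.Helper34.FreeCount
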