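import Mathlib
import Pool.Agent.Helper34.FreeCount

set_option autoImplicit false

/-!
The finitely generated subsemigroup: all its elements are `ok`, and every nontrivial element of the
free group is the image of one of its elements under an automorphism.
-/

namespace Pool.Agent.Helper34.FreeSemi

open Pool.Agent.Helper34.FreeCount

variable {s : ℕ}

/-- the free group of rank `s + 2` -/
abbrev F (s : ℕ) := FreeGroup (Fin (s + 2))

/-- a letter as an element of the free group -/
def lt (x : Letter s) : F s := FreeGroup.mk [x]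

/-- the inverse letter -/
def bar (x : Letter s) : Letter s := (x.1, !x.2)

lemma lt_bar (x : Letter s) : lt (bar x) = (lt x)⁻¹ := by
  simp [lt, bar, FreeGroup.inv_mk, FreeGroup.invRev]

/-- the first generator -/
def a : F s := FreeGroup.of 0

lemma lt_zero_true : lt ((0 : Fin (s + 2)), true) = (a : F s) := rfl

lemma lt_zero_false : lt ((0 : Fin (s + 2)), false) = (a : F s)⁻¹ := lt_bar (0, true)

lemma lt_true (i : Fin (s + 2)) : lt (i, true) = (FreeGroup.of i : F s) := rfl

lemma lt_false (i : Fin (s + 2)) : lt (i, false) = (FreeGroup.of i : F s)⁻¹ := lt_bar (i, true)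

/-- the square of the second generator -/
def d : F s := FreeGroup.mk [(1, true), (1, true)]

/-- starting parts -/
def st : Bool → F s
  | true => 1
  | false => d⁻¹

/-- ending parts -/
def T (e : Bool) : Set (F s) :=
  {bif e then 1 else d} ∪ (lt '' {x | x.1 ≠ 0} ∪ (fun x => lt x * d) '' {x | x.1 ≠ 0})

/-- the generating set -/
def gens (s : ℕ) : Set (F s) := ⋃ e : Bool, (fun t => st e * lt (0, e) * t) '' T e

lemma gens_finite (s : ℕ) : (gens s).Finite := by
  apply Set.finite_iUnion
  intro e
  apply Set.Finite.image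
  unfold T
  exact Set.toFinite _

/-- the semigroup -/
def M (s : ℕ) : Subsemigroup (F s) := Subsemigroup.closure (gens s)

/-! ### All elements of the semigroup are ok -/

/-- total exponent sum -/
def chi : F s →* Multiplicative ℤ := FreeGroup.lift (fun _ => Multiplicative.ofAdd 1)

lemma chi_lt (x : Letter s) : chi (lt x) = Multiplicative.ofAdd (bif x.2 then 1 else -1) := by
  obtain ⟨i, e⟩ := x
  cases e
  · rw [lt_false, map_inv]
    simp [chi]
  · rw [lt_true]
    simp [chi]

lemma chi_d : chi (d : F s) = Multiplicative.ofAdd 2 := by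
  have : (d : F s) = lt (1, true) * lt (1, true) := rfl
  rw [this, map_mul, chi_lt]
  rfl

lemma small_toWord {L : List (Letter s)} (h1 : ∀ x ∈ L, x.1 ≠ 0) (h2 : L.length ≤ 3) :
    (∀ x ∈ (FreeGroup.mk L).toWord, x.1 ≠ 0) ∧ (FreeGroup.mk L).toWord.length ≤ 3 := by
  have hs : (FreeGroup.mk L).toWord.Sublist L := FreeGroup.Red.sublist FreeGroup.reduce.red
  exact ⟨fun x hx => h1 x (hs.subset hx), hs.length_le.trans h2⟩

lemma one_ne_zero' : (1 : Fin (s + 2)) ≠ 0 := by simp

lemma st_small (e : Bool) :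
    (∀ x ∈ (st e : F s).toWord, x.1 ≠ 0) ∧ (st e : F s).toWord.length ≤ 3 := by
  cases e
  · have : (st false : F s) = FreeGroup.mk [(1, false), (1, false)] := by
      simp [st, d, FreeGroup.inv_mk, FreeGroup.invRev]
    rw [this]
    exact small_toWord (by simp) (by simp)
  · simp [st]

lemma junction (e' e : Bool) (t : F s) (ht : t ∈ T e') :
    (∀ x ∈ (t * st e).toWord, x.1 ≠ 0) ∧ (t * st e).toWord.length ≤ 3 ∧
      ((t * st e).toWord = [] → e' = e) := by
  have hd : (d : F s)⁻¹ = FreeGroup.mk [(1, false), (1, false)] := by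
    simp [d, FreeGroup.inv_mk, FreeGroup.invRev]
  have hchi : ∀ g : F s, chi g ≠ 1 → g.toWord = [] → e' = e := by
    intro g hg h
    rw [FreeGroup.toWord_eq_nil_iff] at h
    rw [h, map_one] at hg
    exact absurd rfl hg
  rcases ht with h | h | h
  · rw [Set.mem_singleton_iff] at h
    subst h
    cases e' <;> cases e
    · simp [st]
    · simp only [cond_false, st, mul_one]
      refine ⟨(small_toWord (by simp) (by simp)).1, (small_toWord (by simp) (by simp)).2, ?_⟩
      apply hchi
      rw [chi_d]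
      decide
    · simp only [cond_true, st, one_mul]
      rw [hd]
      refine ⟨(small_toWord (by simp) (by simp)).1, (small_toWord (by simp) (by simp)).2, ?_⟩
      rw [← hd]
      apply hchi
      rw [map_inv, chi_d]
      decide
    · simp [st]
  · obtain ⟨x, hx, rfl⟩ := h
    have hx' : x.1 ≠ 0 := hx
    cases e
    · simp only [st]
      have e1 : lt x * (d : F s)⁻¹ = FreeGroup.mk [x, (1, false), (1, false)] := by
        rw [hd]; rfl
      rw [e1]
      refine ⟨(small_toWord (by simp [hx']) (by simp)).1,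
        (small_toWord (by simp [hx']) (by simp)).2, ?_⟩
      rw [← e1]
      apply hchi
      rw [map_mul, map_inv, chi_d, chi_lt]
      cases x.2 <;> decide
    · simp only [st, mul_one]
      refine ⟨(small_toWord (by simp [hx']) (by simp)).1,
        (small_toWord (by simp [hx']) (by simp)).2, ?_⟩
      apply hchi
      rw [chi_lt]
      cases x.2 <;> decide
  · obtain ⟨x, hx, rfl⟩ := h
    have hx' : x.1 ≠ 0 := hx
    cases e
    · simp only [st, mul_inv_cancel_right]
      refine ⟨(small_toWord (by simp [hx']) (by simp)).1,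
        (small_toWord (by simp [hx']) (by simp)).2, ?_⟩
      apply hchi
      rw [chi_lt]
      cases x.2 <;> decide
    · simp only [st, mul_one]
      have e1 : lt x * (d : F s) = FreeGroup.mk [x, (1, true), (1, true)] := rfl
      rw [e1]
      refine ⟨(small_toWord (by simp [hx']) (by simp)).1,
        (small_toWord (by simp [hx']) (by simp)).2, ?_⟩
      rw [← e1]
      apply hchi
      rw [map_mul, chi_d, chi_lt]
      cases x.2 <;> decide

/-- core words: reduced, starting and ending with a letter of index zero -/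
structure Core (e e' : Bool) (X : List (Letter s)) : Prop where
  red : FreeGroup.IsReduced X
  head : X.head? = some (0, e)
  last : X.getLast? = some (0, e')
  good : ok X 3

lemma Core.ok_all {e e' : Bool} {X : List (Letter s)} (h : Core e e' X) (j : ℕ) (Y : List (Letter s))
    (hY : ok (X ++ Y) 3) : ok (X ++ Y) j := by
  have := h.head
  cases X with
  | nil => simp at this
  | cons x X =>
    simp only [List.head?_cons, Option.some.injEq] at this
    subst this
    rw [List.cons_append, ok_cons_zero rfl] at hY ⊢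
    exact hY

lemma reduced_append {X Y : List (Letter s)} (hX : FreeGroup.IsReduced X)
    (hY : FreeGroup.IsReduced Y)
    (h : ∀ x ∈ X.getLast?, ∀ y ∈ Y.head?, x.1 = y.1 → x.2 = y.2) :
    FreeGroup.IsReduced (X ++ Y) := by
  rw [FreeGroup.IsReduced, List.isChain_append]
  exact ⟨hX, hY, h⟩

lemma Core.glue {e₁ e₂ e₃ e₄ : Bool} {X Y E : List (Letter s)} (hX : Core e₁ e₂ X)
    (hY : Core e₃ e₄ Y) (hE : FreeGroup.IsReduced E) (h0 : ∀ x ∈ E, x.1 ≠ 0)
    (hl : E.length ≤ 3) (hnil : E = [] → e₂ = e₃) : Core e₁ e₄ (X ++ (E ++ Y)) := by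
  have hEY : FreeGroup.IsReduced (E ++ Y) := by
    apply reduced_append hE hY.red
    intro x hx y hy hxy
    rw [hY.head, Option.mem_some_iff] at hy
    subst hy
    exact absurd hxy (h0 x (List.mem_of_getLast? hx))
  refine ⟨?_, ?_, ?_, ?_⟩
  · apply reduced_append hX.red hEY
    intro x hx y hy hxy
    rw [hX.last, Option.mem_some_iff] at hx
    subst hx
    cases E with
    | nil =>
      rw [List.nil_append, hY.head, Option.mem_some_iff] at hy
      subst hy
      exact hnil rfl
    | cons z E =>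
      simp only [List.cons_append, List.head?_cons, Option.mem_some_iff] at hy
      subst hy
      exact absurd hxy.symm (h0 z (by simp))
  · rw [List.head?_append, hX.head]; rfl
  · rw [← List.append_assoc, List.getLast?_append, hY.last]; rfl
  · apply ok_append_of_last _ _ _ ⟨(0, e₂), by rw [hX.last]; rfl, rfl⟩ hX.good
    apply ok_append_of_ne _ _ _ h0 hl
    intro j
    have := hY.ok_all j [] (by simpa using hY.good)
    simpa using this

/-- the shape of the elements of the semigroup -/
def Shape (m : F s) : Prop :=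
  ∃ (e e' : Bool) (X : List (Letter s)) (t : F s), Core e e' X ∧ t ∈ T e' ∧
    m = st e * FreeGroup.mk X * t

lemma shape_of_mem {m : F s} (hm : m ∈ M s) : Shape m := by
  induction hm using Subsemigroup.closure_induction with
  | mem x hx =>
    obtain ⟨e, ht⟩ := Set.mem_iUnion.1 hx
    obtain ⟨t, ht, rfl⟩ := ht
    refine ⟨e, e, [(0, e)], t, ⟨?_, rfl, rfl, ?_⟩, ht, rfl⟩
    · simp [FreeGroup.IsReduced]
    · simp [ok]
  | mul x y _ _ hx hy =>
    obtain ⟨e₁, e₂, X, t, hX, ht, rfl⟩ := hx
    obtain ⟨e₃, e₄, Y, u, hY, hu, rfl⟩ := hy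
    obtain ⟨h1, h2, h3⟩ := junction e₂ e₃ t ht
    refine ⟨e₁, e₄, X ++ ((t * st e₃).toWord ++ Y), u,
      hX.glue hY FreeGroup.isReduced_toWord h1 h2 h3, hu, ?_⟩
    rw [← FreeGroup.mul_mk, ← FreeGroup.mul_mk, FreeGroup.mk_toWord]
    group

lemma toWord_shape {m : F s} (h : Shape m) : ok m.toWord 3 ∧ m.toWord ≠ [] := by
  obtain ⟨e, e', X, t, hX, ht, rfl⟩ := h
  have hst := st_small (s := s) e
  obtain ⟨h1, h2, -⟩ := junction e' true t ht
  have ht1 : t * st true = t := by simp [st]
  rw [ht1] at h1 h2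
  have hXt : FreeGroup.IsReduced (X ++ t.toWord) := by
    apply reduced_append hX.red FreeGroup.isReduced_toWord
    intro x hx y hy hxy
    rw [hX.last, Option.mem_some_iff] at hx
    subst hx
    exact absurd hxy.symm (h1 y (List.mem_of_head? hy))
  have hall : FreeGroup.IsReduced ((st e : F s).toWord ++ (X ++ t.toWord)) := by
    apply reduced_append FreeGroup.isReduced_toWord hXt
    intro x hx y hy hxy
    rw [List.head?_append, hX.head] at hy
    have hy' : ((0 : Fin (s + 2)), e) = y := Option.some.inj hy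
    subst hy'
    exact absurd hxy (hst.1 x (List.mem_of_getLast? hx))
  have hw : (st e * FreeGroup.mk X * t).toWord = (st e : F s).toWord ++ (X ++ t.toWord) := by
    rw [← hall.reduce_eq, ← FreeGroup.toWord_mk, ← FreeGroup.mul_mk, ← FreeGroup.mul_mk,
      FreeGroup.mk_toWord, FreeGroup.mk_toWord, mul_assoc]
  rw [hw]
  have hok : ok (X ++ t.toWord) 3 := by
    apply ok_append_of_last _ _ _ ⟨(0, e'), by rw [hX.last]; rfl, rfl⟩ hX.good
    have := ok_append_of_ne t.toWord [] 3 h1 h2 (fun j => ok_nil j)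
    simpa using this
  constructor
  · exact ok_append_of_ne _ _ _ hst.1 hst.2 (fun j => hX.ok_all j _ hok)
  · have := hX.head
    intro h
    simp only [List.append_eq_nil_iff] at h
    rw [h.2.1] at this
    simp at this

/-! ### Membership -/

lemma gen_mem (e : Bool) (t : F s) (ht : t ∈ T e) : st e * lt (0, e) * t ∈ M s :=
  Subsemigroup.subset_closure (Set.mem_iUnion.2 ⟨e, t, ht, rfl⟩)

lemma pos_mem (t : F s) (ht : t ∈ T true) : ∀ j : ℕ, a ^ (j + 1) * t ∈ M s
  | 0 => by
    have := gen_mem true t ht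
    simpa [st, lt_zero_true] using this
  | j + 1 => by
    have h1 := gen_mem (s := s) true 1 (Or.inl rfl)
    have h2 := pos_mem t ht j
    have h3 := mul_mem h1 h2
    have h4 : st true * lt (0, true) * 1 * (a ^ (j + 1) * t) = a ^ (j + 1 + 1) * t := by
      rw [lt_zero_true, pow_succ' a (j + 1)]
      simp [st, mul_assoc]
    rwa [h4] at h3

lemma neg_mem (t : F s) (ht : t ∈ T false) : ∀ j : ℕ, d⁻¹ * (a⁻¹ ^ (j + 1) * t) ∈ M s
  | 0 => by
    have := gen_mem false t ht
    simpa [st, lt_zero_false, mul_assoc] using this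
  | j + 1 => by
    have h1 := gen_mem (s := s) false d (Or.inl rfl)
    have h2 := neg_mem t ht j
    have h3 := mul_mem h1 h2
    have h4 : st false * lt (0, false) * d * (d⁻¹ * (a⁻¹ ^ (j + 1) * t)) =
        d⁻¹ * (a⁻¹ ^ (j + 1 + 1) * t) := by
      rw [lt_zero_false, pow_succ' a⁻¹ (j + 1)]
      simp [st, mul_assoc]
    rwa [h4] at h3

lemma lt_mem_T (e : Bool) {x : Letter s} (hx : x.1 ≠ 0) : lt x ∈ T e :=
  Or.inr (Or.inl ⟨x, hx, rfl⟩)

lemma lt_d_mem_T (e : Bool) {x : Letter s} (hx : x.1 ≠ 0) : lt x * d ∈ T e :=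
  Or.inr (Or.inr ⟨x, hx, rfl⟩)

/-- products of powers of the first generator and other letters -/
def ev : List (ℤ × Letter s) → F s
  | [] => 1
  | p :: P => a ^ p.1 * lt p.2 * ev P

lemma ev_append (P Q : List (ℤ × Letter s)) : ev (P ++ Q) = ev P * ev Q := by
  induction P with
  | nil => simp [ev]
  | cons p P ih => simp [ev, ih, mul_assoc]

lemma ev_mem : ∀ (Q : List (ℤ × Letter s)), (∀ q ∈ Q, q.1 ≠ 0 ∧ q.2.1 ≠ 0) →
    ∀ (j : ℕ) (x : Letter s), x.1 ≠ 0 →
      a ^ (j + 1) * lt x * ev Q ∈ M s ∧ d⁻¹ * (a⁻¹ ^ (j + 1) * (lt x * ev Q)) ∈ M s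
  | [], _, j, x, hx => by
    simp only [ev, mul_one]
    exact ⟨pos_mem _ (lt_mem_T _ hx) j, neg_mem _ (lt_mem_T _ hx) j⟩
  | (k, y) :: Q, hQ, j, x, hx => by
    have hk : k ≠ 0 := (hQ (k, y) (by simp)).1
    have hy : y.1 ≠ 0 := (hQ (k, y) (by simp)).2
    have hQ' : ∀ q ∈ Q, q.1 ≠ 0 ∧ q.2.1 ≠ 0 := fun q hq => hQ q (by simp [hq])
    rcases lt_or_gt_of_ne hk with hk | hk
    · obtain ⟨i, hi⟩ : ∃ i : ℕ, k = -((i : ℤ) + 1) := ⟨(-k - 1).toNat, by omega⟩
      have h0 := (ev_mem Q hQ' i y hy).2
      have hak : (a : F s) ^ k = a⁻¹ ^ (i + 1) := by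
        rw [hi, zpow_neg, ← inv_zpow]
        exact_mod_cast rfl
      constructor
      · have h1 := mul_mem (pos_mem _ (lt_d_mem_T _ hx) j) h0
        have h2 : a ^ (j + 1) * (lt x * d) * (d⁻¹ * (a⁻¹ ^ (i + 1) * (lt y * ev Q))) =
            a ^ (j + 1) * lt x * ev ((k, y) :: Q) := by
          simp only [ev, hak]
          group
        rwa [h2] at h1
      · have h1 := mul_mem (neg_mem _ (lt_d_mem_T _ hx) j) h0
        have h2 : d⁻¹ * (a⁻¹ ^ (j + 1) * (lt x * d)) *
            (d⁻¹ * (a⁻¹ ^ (i + 1) * (lt y * ev Q))) =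
            d⁻¹ * (a⁻¹ ^ (j + 1) * (lt x * ev ((k, y) :: Q))) := by
          simp only [ev, hak]
          group
        rwa [h2] at h1
    · obtain ⟨i, hi⟩ : ∃ i : ℕ, k = (i : ℤ) + 1 := ⟨(k - 1).toNat, by omega⟩
      have h0 := (ev_mem Q hQ' i y hy).1
      have hak : (a : F s) ^ k = a ^ (i + 1) := by
        rw [hi]
        exact_mod_cast rfl
      constructor
      · have h1 := mul_mem (pos_mem _ (lt_mem_T _ hx) j) h0
        have h2 : a ^ (j + 1) * lt x * (a ^ (i + 1) * lt y * ev Q) =
            a ^ (j + 1) * lt x * ev ((k, y) :: Q) := by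
          simp only [ev, hak]
        rwa [h2] at h1
      · have h1 := mul_mem (neg_mem _ (lt_mem_T _ hx) j) h0
        have h2 : d⁻¹ * (a⁻¹ ^ (j + 1) * lt x) * (a ^ (i + 1) * lt y * ev Q) =
            d⁻¹ * (a⁻¹ ^ (j + 1) * (lt x * ev ((k, y) :: Q))) := by
          simp only [ev, hak]
          group
        rwa [h2] at h1

/-! ### Automorphisms -/

/-- the set of automorphic images of elements of the semigroup -/
def AC (s : ℕ) : Set (F s) := {w | ∃ φ : F s ≃* F s, ∃ m ∈ M s, φ m = w}

lemma AC_of_mem {w : F s} (h : w ∈ M s) : w ∈ AC s := ⟨MulEquiv.refl _, w, h, rfl⟩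

lemma AC_of_equiv (φ : F s ≃* F s) {w : F s} (h : φ w ∈ AC s) : w ∈ AC s := by
  obtain ⟨ψ, m, hm, h⟩ := h
  exact ⟨ψ.trans φ.symm, m, hm, by simp [h]⟩

lemma AC_of_conj (g : F s) {w : F s} (h : g * w * g⁻¹ ∈ AC s) : w ∈ AC s :=
  AC_of_equiv (MulAut.conj g) (by simpa using h)

/-- inverting the first generator -/
def iotaHom (s : ℕ) : F s →* F s :=
  FreeGroup.lift (fun i => if i = 0 then a⁻¹ else FreeGroup.of i)

lemma iotaHom_a : iotaHom s a = a⁻¹ := by simp [iotaHom, a]

lemma iotaHom_of {i : Fin (s + 2)} (hi : i ≠ 0) : iotaHom s (FreeGroup.of i) = FreeGroup.of i := by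
  simp [iotaHom, hi]

/-- inverting the first generator -/
def iota (s : ℕ) : F s ≃* F s :=
  MonoidHom.toMulEquiv (iotaHom s) (iotaHom s)
    (by
      ext i
      by_cases hi : i = 0
      · subst hi
        change iotaHom s (iotaHom s a) = a
        rw [iotaHom_a, map_inv, iotaHom_a, inv_inv]
      · simp [iotaHom_of hi])
    (by
      ext i
      by_cases hi : i = 0
      · subst hi
        change iotaHom s (iotaHom s a) = a
        rw [iotaHom_a, map_inv, iotaHom_a, inv_inv]
      · simp [iotaHom_of hi])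

lemma iota_a : iota s a = a⁻¹ := iotaHom_a

lemma iota_lt {x : Letter s} (hx : x.1 ≠ 0) : iota s (lt x) = lt x := by
  obtain ⟨i, e⟩ := x
  cases e
  · rw [lt_false, map_inv]
    congr 1
    exact iotaHom_of hx
  · rw [lt_true]
    exact iotaHom_of hx

lemma iota_ev : ∀ (Q : List (ℤ × Letter s)), (∀ q ∈ Q, q.2.1 ≠ 0) →
    iota s (ev Q) = ev (Q.map (fun q => (-q.1, q.2)))
  | [], _ => by simp [ev]
  | (k, y) :: Q, hQ => by
    have hy : y.1 ≠ 0 := hQ (k, y) (by simp)
    have hQ' : ∀ q ∈ Q, q.2.1 ≠ 0 := fun q hq => hQ q (by simp [hq])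
    simp only [ev, map_mul, map_zpow, iota_a, List.map_cons, iota_lt hy, iota_ev Q hQ', inv_zpow,
      zpow_neg]

/-- products with nonzero exponents are automorphic images of elements of the semigroup -/
lemma ev_mem_AC (Q : List (ℤ × Letter s)) (hne : Q ≠ []) (hQ : ∀ q ∈ Q, q.1 ≠ 0 ∧ q.2.1 ≠ 0) :
    ev Q ∈ AC s := by
  have pos : ∀ (k : ℤ) (y : Letter s) (Q : List (ℤ × Letter s)), 0 < k → y.1 ≠ 0 →
      (∀ q ∈ Q, q.1 ≠ 0 ∧ q.2.1 ≠ 0) → ev ((k, y) :: Q) ∈ M s := by
    intro k y Q hk hy hQ
    obtain ⟨i, hi⟩ : ∃ i : ℕ, k = (i : ℤ) + 1 := ⟨(k - 1).toNat, by omega⟩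
    have h := (ev_mem Q hQ i y hy).1
    have hak : (a : F s) ^ k = a ^ (i + 1) := by
      rw [hi]
      exact_mod_cast rfl
    simp only [ev, hak]
    exact h
  cases Q with
  | nil => exact absurd rfl hne
  | cons p Q =>
    obtain ⟨k, y⟩ := p
    have hk : k ≠ 0 := (hQ (k, y) (by simp)).1
    have hy : y.1 ≠ 0 := (hQ (k, y) (by simp)).2
    have hQ' : ∀ q ∈ Q, q.1 ≠ 0 ∧ q.2.1 ≠ 0 := fun q hq => hQ q (by simp [hq])
    rcases lt_or_gt_of_ne hk with hk | hk
    · apply AC_of_equiv (iota s)
      apply AC_of_mem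
      rw [iota_ev _ (fun q hq => (hQ q hq).2), List.map_cons]
      apply pos _ _ _ (by simpa using hk) hy
      intro q hq
      obtain ⟨q', hq', rfl⟩ := List.mem_map.1 hq
      exact ⟨by simpa using (hQ' q' hq').1, (hQ' q' hq').2⟩
    · exact AC_of_mem (pos k y Q hk hy hQ')

lemma zpow_mem_AC (k : ℤ) (hk : k ≠ 0) : (a : F s) ^ k ∈ AC s := by
  have pos : ∀ k : ℤ, 0 < k → (a : F s) ^ k ∈ M s := by
    intro k hk
    obtain ⟨i, hi⟩ : ∃ i : ℕ, k = (i : ℤ) + 1 := ⟨(k - 1).toNat, by omega⟩
    have h := pos_mem (s := s) 1 (Or.inl rfl) i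
    have hak : (a : F s) ^ k = a ^ (i + 1) := by
      rw [hi]
      exact_mod_cast rfl
    rw [hak]
    simpa using h
  rcases lt_or_gt_of_ne hk with hk | hk
  · apply AC_of_equiv (iota s)
    apply AC_of_mem
    rw [map_zpow, iota_a, inv_zpow, ← zpow_neg]
    exact pos _ (by omega)
  · exact AC_of_mem (pos k hk)

/-- signed index of a letter -/
def u (x : Letter s) : ℤ := bif x.2 then (x.1 : ℕ) else -((x.1 : ℕ) : ℤ)

/-- the twisting automorphism, as a homomorphism -/
def psiHom (s : ℕ) (n : ℤ) : F s →* F s :=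
  FreeGroup.lift (fun i => a ^ (n * ((i : ℕ) : ℤ)) * FreeGroup.of i * a ^ (n * ((i : ℕ) : ℤ)))

lemma psiHom_of (n : ℤ) (i : Fin (s + 2)) : psiHom s n (FreeGroup.of i) =
    a ^ (n * ((i : ℕ) : ℤ)) * FreeGroup.of i * a ^ (n * ((i : ℕ) : ℤ)) := by
  simp [psiHom]

lemma psiHom_a (n : ℤ) : psiHom s n a = a := by
  rw [a, psiHom_of]
  simp

lemma psiHom_comp (n : ℤ) : (psiHom s (-n)).comp (psiHom s n) = MonoidHom.id _ := by
  ext i
  simp only [MonoidHom.comp_apply, MonoidHom.id_apply]
  rw [psiHom_of, map_mul, map_mul, map_zpow, psiHom_a, psiHom_of]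
  simp only [neg_mul, zpow_neg]
  group

/-- the twisting automorphism -/
def psi (s : ℕ) (n : ℤ) : F s ≃* F s :=
  MonoidHom.toMulEquiv (psiHom s n) (psiHom s (-n)) (psiHom_comp n)
    (by have := psiHom_comp (s := s) (-n); rwa [neg_neg] at this)

lemma psi_a (n : ℤ) : psi s n a = a := psiHom_a n

lemma psi_lt (n : ℤ) (x : Letter s) : psi s n (lt x) = a ^ (n * u x) * lt x * a ^ (n * u x) := by
  obtain ⟨i, e⟩ := x
  cases e
  · rw [lt_false, map_inv]
    have : psi s n (FreeGroup.of i) = _ := psiHom_of n i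
    rw [this]
    simp [u, mul_assoc]
  · rw [lt_true]
    exact psiHom_of n i

/-- the twisted list -/
def tw (n : ℤ) : Letter s → List (ℤ × Letter s) → List (ℤ × Letter s)
  | _, [] => []
  | y, p :: P => (n * u y + p.1 + n * u p.2, p.2) :: tw n p.2 P

/-- the last letter -/
def lastL : Letter s → List (ℤ × Letter s) → Letter s
  | y, [] => y
  | _, p :: P => lastL p.2 P

lemma tw_spec (n : ℤ) : ∀ (P : List (ℤ × Letter s)) (y : Letter s),
    a ^ (n * u y) * psi s n (ev P) = ev (tw n y P) * a ^ (n * u (lastL y P))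
  | [], y => by simp [ev, tw, lastL]
  | (k, x) :: P, y => by
    have ih := tw_spec n P x
    simp only [ev, tw, lastL, map_mul, map_zpow, psi_a, psi_lt]
    rw [mul_assoc (a ^ (n * u y + k + n * u x) * lt x), ← ih, zpow_add, zpow_add]
    group

/-- no cancellation -/
def cond : Letter s → List (ℤ × Letter s) → Prop
  | _, [] => True
  | y, p :: P => (p.1 = 0 → p.2 ≠ bar y) ∧ cond p.2 P

lemma u_add_ne {x y : Letter s} (hx : x.1 ≠ 0) (hy : y.1 ≠ 0) (h : x ≠ bar y) : u y + u x ≠ 0 := by
  obtain ⟨i, e⟩ := x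
  obtain ⟨j, f⟩ := y
  have hi : 0 < (i : ℕ) := Nat.pos_of_ne_zero (fun h => hx (Fin.ext h))
  have hj : 0 < (j : ℕ) := Nat.pos_of_ne_zero (fun h => hy (Fin.ext h))
  cases e <;> cases f <;> simp only [u, cond_false, cond_true]
  · omega
  · intro h0
    apply h
    have : i = j := Fin.ext (by omega)
    subst this
    rfl
  · intro h0
    apply h
    have : i = j := Fin.ext (by omega)
    subst this
    rfl
  · omega

lemma u_bar (y : Letter s) : u (bar y) = - u y := by
  obtain ⟨j, f⟩ := y
  cases f <;> simp [u, bar]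

lemma tw_ne (n : ℤ) : ∀ (P : List (ℤ × Letter s)) (y : Letter s), y.1 ≠ 0 →
    (∀ p ∈ P, p.2.1 ≠ 0) → (∀ p ∈ P, |p.1| < n) → cond y P →
    ∀ q ∈ tw n y P, q.1 ≠ 0 ∧ q.2.1 ≠ 0
  | [], _, _, _, _, _ => by simp [tw]
  | (k, x) :: P, y, hy, hP, hn, hc => by
    have hx : x.1 ≠ 0 := hP (k, x) (by simp)
    have hk : |k| < n := hn (k, x) (by simp)
    have hc1 : k = 0 → x ≠ bar y := hc.1
    have hc2 : cond x P := hc.2
    intro q hq
    simp only [tw, List.mem_cons] at hq
    rcases hq with rfl | hq
    · refine ⟨?_, hx⟩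
      simp only
      by_cases hxy : x = bar y
      · rw [hxy, u_bar]
        have : k ≠ 0 := fun h => hc1 h hxy
        intro h
        apply this
        linarith
      · have hz := u_add_ne hx hy hxy
        intro h
        have h1 : k = -(n * (u y + u x)) := by linarith
        have hn0 : 0 < n := lt_of_le_of_lt (abs_nonneg k) hk
        have h2 : |k| = n * |u y + u x| := by
          rw [h1, abs_neg, abs_mul, abs_of_pos hn0]
        have h3 : 1 ≤ |u y + u x| := Int.one_le_abs hz
        nlinarith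
    · exact tw_ne n P x hx (fun p hp => hP p (by simp [hp])) (fun p hp => hn p (by simp [hp]))
        hc2 q hq

lemma cond_split : ∀ (P : List (ℤ × Letter s)) (y : Letter s), ¬ cond y P →
    (∃ P', P = (0, bar y) :: P') ∨
      ∃ (R : List (ℤ × Letter s)) (k : ℤ) (x : Letter s) (P' : List (ℤ × Letter s)),
        P = R ++ (k, x) :: (0, bar x) :: P'
  | [], _, h => absurd trivial h
  | (k, x) :: P, y, h => by
    have h' : ¬ (k = 0 → x ≠ bar y) ∨ ¬ cond x P := by
      by_contra hcon
      push Not at hcon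
      exact h ⟨hcon.1, hcon.2⟩
    rcases h' with h' | h'
    · push Not at h'
      left
      exact ⟨P, by rw [h'.1, h'.2]⟩
    · right
      rcases cond_split P x h' with ⟨P', rfl⟩ | ⟨R, k', x', P', rfl⟩
      · exact ⟨[], k, x, P', rfl⟩
      · exact ⟨(k, x) :: R, k', x', P', rfl⟩

lemma bar_ne (y : Letter s) : bar y ≠ y := by
  intro h
  have := congrArg Prod.snd h
  simp [bar] at this

/-- the main descent -/
lemma main_descent : ∀ (m : ℕ) (P : List (ℤ × Letter s)) (k : ℤ), P.length = m →
    (∀ p ∈ P, p.2.1 ≠ 0) → ev P * a ^ k ≠ 1 → ev P * a ^ k ∈ AC s := by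
  intro m
  induction m using Nat.strong_induction_on with
  | _ m ih =>
    intro P k hm hP hne
    -- conjugation by an element reduces to a shorter list
    have step : ∀ (g : F s) (R : List (ℤ × Letter s)) (l : ℤ), R.length < m →
        (∀ p ∈ R, p.2.1 ≠ 0) → g * (ev P * a ^ k) * g⁻¹ = ev R * a ^ l →
        ev P * a ^ k ∈ AC s := by
      intro g R l hR hR0 hg
      apply AC_of_conj g
      rw [hg]
      apply ih R.length hR R l rfl hR0
      rw [← hg]
      intro h
      apply hne
      have h2 : g * (ev P * a ^ k) = g := by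
        rw [mul_inv_eq_one] at h
        exact h
      exact mul_eq_left.1 h2
    cases P with
    | nil =>
      simp only [ev, one_mul] at hne ⊢
      apply zpow_mem_AC
      rintro rfl
      simp at hne
    | cons p P =>
      obtain ⟨k₀, x₀⟩ := p
      have hx₀ : x₀.1 ≠ 0 := hP (k₀, x₀) (by simp)
      -- absorb the last power
      set Q : List (ℤ × Letter s) := (k + k₀, x₀) :: P with hQdef
      have hQ : ∀ q ∈ Q, q.2.1 ≠ 0 := by
        intro q hq
        rw [hQdef, List.mem_cons] at hq
        rcases hq with rfl | hq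
        · exact hx₀
        · exact hP q (by simp [hq])
      have hQlen : Q.length = m := by rw [← hm]; simp [hQdef]
      have hconj : a ^ k * (ev ((k₀, x₀) :: P) * a ^ k) * (a ^ k)⁻¹ = ev Q := by
        simp only [hQdef, ev, zpow_add]
        group
      set y := lastL x₀ P with hy
      have hy0 : y.1 ≠ 0 := by
        have key : ∀ (P : List (ℤ × Letter s)) (x : Letter s), x.1 ≠ 0 → (∀ p ∈ P, p.2.1 ≠ 0) →
            (lastL x P).1 ≠ 0 := by
          intro P
          induction P with
          | nil => intro x hx _; exact hx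
          | cons p P ihP =>
            intro x _ hp
            exact ihP p.2 (hp p (by simp)) (fun q hq => hp q (by simp [hq]))
        exact key P x₀ hx₀ (fun p hp => hP p (by simp [hp]))
      by_cases hc : cond y Q
      · -- good case
        obtain ⟨n, hn⟩ : ∃ n : ℤ, ∀ q ∈ Q, |q.1| < n := by
          have key : ∀ Q : List (ℤ × Letter s), ∃ n : ℤ, ∀ q ∈ Q, |q.1| < n := by
            intro Q
            induction Q with
            | nil => exact ⟨0, by simp⟩
            | cons q Q ihQ =>
              obtain ⟨n, hn⟩ := ihQ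
              refine ⟨max n (|q.1| + 1), ?_⟩
              intro p hp
              rw [List.mem_cons] at hp
              rcases hp with rfl | hp
              · exact lt_of_lt_of_le (lt_add_one _) (le_max_right _ _)
              · exact lt_of_lt_of_le (hn p hp) (le_max_left _ _)
          exact key Q
        apply AC_of_conj (a ^ k)
        rw [hconj]
        apply AC_of_equiv (psi s n)
        apply AC_of_conj (a ^ (n * u y))
        have hspec := tw_spec n Q y
        have hlast : lastL y Q = y := rfl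
        rw [hspec, hlast, mul_inv_cancel_right]
        apply ev_mem_AC
        · simp [hQdef, tw]
        · exact tw_ne n Q y hy0 hQ hn hc
      · rcases cond_split Q y hc with ⟨Q', hQ'⟩ | ⟨R, k', x', Q', hQ'⟩
        · -- cancellation between the last and the first letter
          have h1 : k + k₀ = 0 ∧ x₀ = bar y ∧ P = Q' := by
            rw [hQdef] at hQ'
            simp only [List.cons.injEq, Prod.mk.injEq] at hQ'
            exact ⟨hQ'.1.1, hQ'.1.2, hQ'.2⟩
          -- `P` is not empty
          have hPne : P ≠ [] := by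
            rintro rfl
            have : y = x₀ := rfl
            rw [this] at h1
            exact bar_ne x₀ h1.2.1.symm
          obtain ⟨R, p', hR⟩ := List.eq_nil_or_concat P |>.resolve_left hPne
          rw [List.concat_eq_append] at hR
          have hlastP : ∀ (R : List (ℤ × Letter s)) (p' : ℤ × Letter s) (x : Letter s),
              lastL x (R ++ [p']) = p'.2 := by
            intro R
            induction R with
            | nil => intro p' x; rfl
            | cons r R ihR => intro p' x; exact ihR p' r.2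
          have hy2 : y = p'.2 := by
            rw [hy, hR]
            exact hlastP R p' x₀
          have hlen : R.length < m := by
            rw [← hm, hR]
            simp
          refine step (lt y * a ^ k) R p'.1 hlen (fun r hr => hP r (by simp [hR, hr])) ?_
          have e1 : a ^ k * (ev ((k₀, x₀) :: P) * a ^ k) * (a ^ k)⁻¹ =
              lt x₀ * (ev R * a ^ p'.1 * lt y) := by
            rw [hconj, hQdef, h1.1, hR, hy2]
            simp [ev, ev_append, mul_assoc]
          have e2 : lt x₀ = (lt y)⁻¹ := by rw [h1.2.1, lt_bar]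
          calc lt y * a ^ k * (ev ((k₀, x₀) :: P) * a ^ k) * (lt y * a ^ k)⁻¹
              = lt y * (a ^ k * (ev ((k₀, x₀) :: P) * a ^ k) * (a ^ k)⁻¹) * (lt y)⁻¹ := by group
            _ = lt y * ((lt y)⁻¹ * (ev R * a ^ p'.1 * lt y)) * (lt y)⁻¹ := by rw [e1, e2]
            _ = ev R * a ^ p'.1 := by group
        · -- cancellation inside
          have hlen : (Q' ++ R).length < m := by
            rw [← hQlen, hQ']
            simp
            omega
          refine step (ev Q' * a ^ k) (Q' ++ R) k' hlen ?_ ?_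
          · intro q hq
            apply hQ
            rw [hQ']
            rw [List.mem_append] at hq
            rcases hq with hq | hq
            · simp [hq]
            · simp [hq]
          · have e1 : a ^ k * (ev ((k₀, x₀) :: P) * a ^ k) * (a ^ k)⁻¹ =
                ev R * a ^ k' * ev Q' := by
              rw [hconj, hQ', ev_append]
              simp [ev, lt_bar, mul_assoc]
            calc ev Q' * a ^ k * (ev ((k₀, x₀) :: P) * a ^ k) * (ev Q' * a ^ k)⁻¹
                = ev Q' * (a ^ k * (ev ((k₀, x₀) :: P) * a ^ k) * (a ^ k)⁻¹) * (ev Q')⁻¹ := by group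
              _ = ev Q' * (ev R * a ^ k' * ev Q') * (ev Q')⁻¹ := by rw [e1]
              _ = ev (Q' ++ R) * a ^ k' := by rw [ev_append]; group

/-- every element has the standard form -/
lemma exists_ev : ∀ (L : List (Letter s)), ∃ (P : List (ℤ × Letter s)) (k : ℤ),
    (∀ p ∈ P, p.2.1 ≠ 0) ∧ FreeGroup.mk L = ev P * a ^ k
  | [] => ⟨[], 0, by simp, by simp [ev, FreeGroup.one_eq_mk]⟩
  | x :: L => by
    obtain ⟨P, k, hP, h⟩ := exists_ev L
    have hx : FreeGroup.mk (x :: L) = lt x * (ev P * a ^ k) := by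
      rw [← h, lt, FreeGroup.mul_mk]; rfl
    by_cases h0 : x.1 = 0
    · obtain ⟨e, he⟩ : ∃ e : ℤ, lt x = a ^ e := by
        obtain ⟨i, f⟩ := x
        simp only at h0
        subst h0
        cases f
        · exact ⟨-1, by rw [lt_zero_false]; simp⟩
        · exact ⟨1, by rw [lt_zero_true]; simp⟩
      cases P with
      | nil =>
        refine ⟨[], e + k, by simp, ?_⟩
        rw [hx, he, zpow_add]
        simp [ev]
      | cons p P =>
        refine ⟨(e + p.1, p.2) :: P, k, ?_, ?_⟩
        · intro q hq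
          rw [List.mem_cons] at hq
          rcases hq with rfl | hq
          · exact hP p (by simp)
          · exact hP q (by simp [hq])
        · rw [hx, he]
          simp [ev, zpow_add, mul_assoc]
    · refine ⟨(0, x) :: P, k, ?_, ?_⟩
      · intro q hq
        rw [List.mem_cons] at hq
        rcases hq with rfl | hq
        · exact h0
        · exact hP q hq
      · rw [hx]
        simp [ev, mul_assoc]

theorem mem_AC {w : F s} (hw : w ≠ 1) : w ∈ AC s := by
  obtain ⟨P, k, hP, h⟩ := exists_ev w.toWord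
  rw [FreeGroup.mk_toWord] at h
  rw [h] at hw ⊢
  exact main_descent P.length P k rfl hP hw

theorem AC_eq : AC s = {w | w ≠ 1} := by
  ext w
  constructor
  · rintro ⟨φ, m, hm, rfl⟩
    have h := (toWord_shape (shape_of_mem hm)).2
    intro h1
    apply h
    rw [FreeGroup.toWord_eq_nil_iff]
    exact (map_eq_one_iff φ φ.injective).1 h1
  · intro hw
    exact mem_AC hw

theorem ok_of_mem {m : F s} (hm : m ∈ M s) : ok m.toWord 3 := (toWord_shape (shape_of_mem hm)).1

end Pool.Agent.Helper34.FreeSemi
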