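import Mathlib
import Pool.Agent.Helper92.HRT.Defs

/-!
Piece O4 of the HRT disproof: every large scale is covered by one of the twelve chains.
-/

set_option autoImplicit false

namespace Pool.Agent.Helper92.HRT

open MeasureTheory Finset

theorem Ech_succ (i : Fin 12) (j : ℕ) : Ech i (j + 1) = 64 * Ech i j := by
  unfold Ech; ring

/-- Powers of two are exponents. -/
theorem exists_Ech_pow (b : ℕ) (hb : 3 ≤ b) : ∃ (i : Fin 12) (j : ℕ), Ech i j = 2 ^ b := by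
  obtain ⟨c, rfl⟩ := Nat.exists_eq_add_of_le hb
  have h6 : c = 6 * (c / 6) + c % 6 := (Nat.div_add_mod c 6).symm
  have hr : c % 6 < 6 := Nat.mod_lt _ (by norm_num)
  generalize c / 6 = j at h6
  generalize c % 6 = r at h6 hr
  subst h6
  have h64 : (64 : ℕ) ^ j = 2 ^ (6 * j) := by rw [pow_mul]; norm_num
  interval_cases r
  · exact ⟨0, j, by simp only [Ech, cc]; rw [h64]; simp; ring⟩
  · exact ⟨2, j, by simp only [Ech, cc]; rw [h64]; simp; ring⟩
  · exact ⟨4, j, by simp only [Ech, cc]; rw [h64]; simp; ring⟩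
  · exact ⟨6, j, by simp only [Ech, cc]; rw [h64]; simp; ring⟩
  · exact ⟨8, j, by simp only [Ech, cc]; rw [h64]; simp; ring⟩
  · exact ⟨10, j, by simp only [Ech, cc]; rw [h64]; simp; ring⟩

/-- Three times powers of two are exponents. -/
theorem exists_Ech_three_pow (b : ℕ) (hb : 2 ≤ b) :
    ∃ (i : Fin 12) (j : ℕ), Ech i j = 3 * 2 ^ b := by
  obtain ⟨c, rfl⟩ := Nat.exists_eq_add_of_le hb
  have h6 : c = 6 * (c / 6) + c % 6 := (Nat.div_add_mod c 6).symm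
  have hr : c % 6 < 6 := Nat.mod_lt _ (by norm_num)
  generalize c / 6 = j at h6
  generalize c % 6 = r at h6 hr
  subst h6
  have h64 : (64 : ℕ) ^ j = 2 ^ (6 * j) := by rw [pow_mul]; norm_num
  interval_cases r
  · exact ⟨1, j, by simp only [Ech, cc]; rw [h64]; simp; ring⟩
  · exact ⟨3, j, by simp only [Ech, cc]; rw [h64]; simp; ring⟩
  · exact ⟨5, j, by simp only [Ech, cc]; rw [h64]; simp; ring⟩
  · exact ⟨7, j, by simp only [Ech, cc]; rw [h64]; simp; ring⟩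
  · exact ⟨9, j, by simp only [Ech, cc]; rw [h64]; simp; ring⟩
  · exact ⟨11, j, by simp only [Ech, cc]; rw [h64]; simp; ring⟩

/-- The choice of the exponent. -/
theorem exists_exponent (L : ℕ) (hL : 2000 ≤ L) :
    ∃ (i : Fin 12) (j : ℕ), L + 2 ≤ 63 * Ech i j ∧ 272 * Ech i j ≤ 7 * L := by
  set y := (L + 64) / 63 with hy
  have h1 : 63 * y ≤ L + 64 := Nat.mul_div_le _ _
  have h2 : L + 2 ≤ 63 * y := by omega
  have hy0 : y ≠ 0 := by omega
  set a := Nat.log 2 y with ha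
  have h3 : 2 ^ a ≤ y := Nat.pow_log_le_self 2 hy0
  have h4 : y < 2 ^ (a + 1) := Nat.lt_pow_succ_log_self (by norm_num) y
  have ha4 : 4 ≤ a := by
    by_contra h
    push Not at h
    have : 2 ^ (a + 1) ≤ 2 ^ 4 := Nat.pow_le_pow_right (by norm_num) (by omega)
    omega
  obtain ⟨b, hb⟩ : ∃ b, a = b + 1 := ⟨a - 1, by omega⟩
  have h5 : 2 ^ a = 2 * 2 ^ b := by rw [hb]; ring
  have h6 : 2 ^ (a + 1) = 4 * 2 ^ b := by rw [hb]; ring
  by_cases hc1 : y ≤ 2 ^ a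
  · obtain ⟨i, j, hij⟩ := exists_Ech_pow a (by omega)
    exact ⟨i, j, by rw [hij]; omega, by rw [hij]; omega⟩
  · by_cases hc2 : y ≤ 3 * 2 ^ b
    · obtain ⟨i, j, hij⟩ := exists_Ech_three_pow b (by omega)
      exact ⟨i, j, by rw [hij]; omega, by rw [hij]; omega⟩
    · obtain ⟨i, j, hij⟩ := exists_Ech_pow (a + 1) (by omega)
      exact ⟨i, j, by rw [hij]; omega, by rw [hij]; omega⟩

theorem coverage : ∃ N0 : ℕ, ∀ N : ℕ, N0 ≤ N → ∃ (i : Fin 12) (j : ℕ),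
    2 ^ (Ech i j) ≤ N ∧ (N + 1) * 2 ^ (Ech i j + 1) ≤ 2 ^ (Ech i (j + 1)) ∧
    (2 : ℝ) ^ (4 * Ech i j) * 2 ^ (Ech i (j + 1)) * (N : ℝ) ^ (1 / 4 : ℝ) ≤ (N : ℝ) ^ 2 := by
  refine ⟨2 ^ 2000, fun N hN => ?_⟩
  have hN0 : N ≠ 0 := by
    rintro rfl
    have : 0 < 2 ^ 2000 := by positivity
    omega
  set L := Nat.log 2 N with hLdef
  have hL : 2000 ≤ L := (Nat.le_log_iff_pow_le (by norm_num) hN0).mpr hN
  obtain ⟨i, j, h1, h2⟩ := exists_exponent L hL
  have h3 : 2 ^ L ≤ N := Nat.pow_log_le_self 2 hN0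
  have h4 : N < 2 ^ (L + 1) := Nat.lt_pow_succ_log_self (by norm_num) N
  refine ⟨i, j, ?_, ?_, ?_⟩
  · exact (Nat.pow_le_pow_right (by norm_num) (by omega)).trans h3
  · rw [Ech_succ]
    calc (N + 1) * 2 ^ (Ech i j + 1) ≤ 2 ^ (L + 1) * 2 ^ (Ech i j + 1) :=
          Nat.mul_le_mul_right _ h4
      _ = 2 ^ (L + 1 + (Ech i j + 1)) := (pow_add _ _ _).symm
      _ ≤ 2 ^ (64 * Ech i j) := Nat.pow_le_pow_right (by norm_num) (by omega)
  · rw [Ech_succ]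
    have hNpos : (0 : ℝ) < N := by exact_mod_cast Nat.pos_of_ne_zero hN0
    have h5 : (2 : ℝ) ^ (4 * Ech i j) * 2 ^ (64 * Ech i j) ≤ (N : ℝ) ^ (7 / 4 : ℝ) := by
      have e1 : (2 : ℝ) ^ (4 * Ech i j) * 2 ^ (64 * Ech i j) = (2 : ℝ) ^ ((68 * Ech i j : ℕ) : ℝ) := by
        rw [Real.rpow_natCast, ← pow_add]
        congr 1
        ring
      rw [e1]
      have e2 : ((2 : ℝ) ^ (L : ℕ)) ^ (7 / 4 : ℝ) ≤ (N : ℝ) ^ (7 / 4 : ℝ) :=
        Real.rpow_le_rpow (by positivity) (by exact_mod_cast h3) (by norm_num)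
      refine le_trans ?_ e2
      rw [← Real.rpow_natCast 2 L, ← Real.rpow_mul (by norm_num)]
      apply Real.rpow_le_rpow_of_exponent_le (by norm_num)
      have h2' : (272 : ℝ) * (Ech i j : ℝ) ≤ 7 * L := by exact_mod_cast h2
      push_cast
      linarith
    have h6 : (N : ℝ) ^ 2 = (N : ℝ) ^ (7 / 4 : ℝ) * (N : ℝ) ^ (1 / 4 : ℝ) := by
      rw [← Real.rpow_add hNpos, ← Real.rpow_natCast]
      norm_num
    rw [h6]
    exact mul_le_mul_of_nonneg_right h5 (by positivity)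

end Pool.Agent.Helper92.HRT
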